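import Pool.Agent.H91.Em3

set_option autoImplicit false

open Pool.Agent.H91.Em in
theorem Pool.Agent.Results.MP_2ee812_an.Four.result :
    ∀ a b c d : ℝ, 0 < a → 0 < b → 0 < c → 0 < d →
    √(a⁻¹ ^ 2 + b⁻¹ ^ 2 + c⁻¹ ^ 2 + d⁻¹ ^ 2) ≤ (a⁻¹ + b⁻¹ + c⁻¹ + d⁻¹)
      - ((a + b)⁻¹ + (a + c)⁻¹ + (a + d)⁻¹ + (b + c)⁻¹ + (b + d)⁻¹ + (c + d)⁻¹)
      + ((a + b + c)⁻¹ + (a + b + d)⁻¹ + (a + c + d)⁻¹ + (b + c + d)⁻¹) - (a + b + c + d)⁻¹ :=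
  main
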